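import Pool.Agent.W662.SK.Basic
import Pool.Agent.W662.SK.StmtsA

set_option autoImplicit false

open scoped InnerProductSpace ENNReal

namespace Pool.Agent.W212.SK

open Pool.Agent.W662.SK

noncomputable section

/-- the inclusion of a coordinate -/
def sing (E : Type) [NormedAddCommGroup E] [InnerProductSpace ℂ E] (m : ℤ) :
    E →L[ℂ] L2 ℤ E :=
  LinearMap.mkContinuous
    { toFun := fun x => lp.single 2 m x
      map_add' := fun x y => by
        refine l2_ext fun k => ?_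
        rw [l2_add_apply]
        by_cases h : k = m
        · subst h; simp
        · rw [lp.single_apply_ne _ _ _ h, lp.single_apply_ne _ _ _ h, lp.single_apply_ne _ _ _ h,
            add_zero]
      map_smul' := fun c x => by
        refine l2_ext fun k => ?_
        rw [RingHom.id_apply, l2_smul_apply]
        by_cases h : k = m
        · subst h; simp
        · rw [lp.single_apply_ne _ _ _ h, lp.single_apply_ne _ _ _ h, smul_zero] }
    1 (fun x => by
      change ‖(lp.single 2 m x : L2 ℤ E)‖ ≤ 1 * ‖x‖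
      rw [lp.norm_single (by norm_num), one_mul])

lemma sing_apply {E : Type} [NormedAddCommGroup E] [InnerProductSpace ℂ E] (m : ℤ) (x : E) :
    sing E m x = lp.single 2 m x := rfl

lemma inner_lft_sing {Γ E : Type} [NormedAddCommGroup E] [InnerProductSpace ℂ E]
    (m m' : ℤ) (a b : L2 Γ E) :
    ⟪lft Γ (sing E m) a, lft Γ (sing E m') b⟫_ℂ = if m = m' then ⟪a, b⟫_ℂ else 0 := by
  refine (inner_hasSum _ _).unique ?_
  have h1 : ∀ x, ⟪lft Γ (sing E m) a x, lft Γ (sing E m') b x⟫_ℂ =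
      if m = m' then ⟪a x, b x⟫_ℂ else 0 := by
    intro x
    rw [lft_apply, lft_apply, sing_apply, sing_apply, inner_single_left']
    by_cases h : m = m'
    · subst h; simp
    · rw [lp.single_apply_ne _ _ _ h, if_neg h, inner_zero_right]
  simp only [h1]
  by_cases h : m = m'
  · simp only [h, if_true]
    exact inner_hasSum a b
  · simp only [h, if_false]
    exact hasSum_zero

theorem l2 : S_L2 := by
  intro Γ K _ _ _ _ π hWC n ζ F ε hε
  have hev : ∀ᶠ S : Finset ℤ in Filter.atTop, ∀ g ∈ F, ∀ i j : Fin n,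
      dist (∑ m ∈ S, ⟪ζ j m, π g (ζ i m)⟫_ℂ) ⟪ζ j, lf π g (ζ i)⟫_ℂ < ε / 2 := by
    rw [Filter.eventually_all_finset]
    intro g _
    rw [Filter.eventually_all]
    intro i
    rw [Filter.eventually_all]
    intro j
    have h := inner_hasSum (ζ j) (lf π g (ζ i))
    exact (Metric.tendsto_nhds.1 h) (ε / 2) (by positivity)
  obtain ⟨S, hS⟩ := hev.exists
  have hpos : 0 < ε / (2 * ((S.card : ℝ) + 1)) := by positivity
  set e := Fintype.equivFin (Fin n × S) with he
  obtain ⟨E, i1, i2, i3, η, hη⟩ := hWC (Fintype.card (Fin n × S))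
    (fun k => ζ (e.symm k).1 ((e.symm k).2 : ℤ)) F _ hpos
  refine ⟨L2 ℤ E, inferInstance, inferInstance, inferInstance,
    fun i => ∑ m : S, lft Γ (sing E m) (η (e (i, m))), ?_⟩
  intro g hg i j
  have h1 : ⟪∑ m : S, lft Γ (sing E m) (η (e (j, m))),
      Lam (L2 ℤ E) g (∑ m : S, lft Γ (sing E m) (η (e (i, m))))⟫_ℂ =
      ∑ m : S, ⟪η (e (j, m)), Lam E g (η (e (i, m)))⟫_ℂ := by
    rw [map_sum, sum_inner]
    refine Finset.sum_congr rfl fun m _ => ?_
    rw [inner_sum]
    have h2 : ∀ m' : S, ⟪lft Γ (sing E m) (η (e (j, m))),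
        Lam (L2 ℤ E) g (lft Γ (sing E m') (η (e (i, m'))))⟫_ℂ =
        if m = m' then ⟪η (e (j, m)), Lam E g (η (e (i, m')))⟫_ℂ else 0 := by
      intro m'
      have h3 : Lam (L2 ℤ E) g (lft Γ (sing E m') (η (e (i, m')))) =
          lft Γ (sing E m') (Lam E g (η (e (i, m')))) := by
        have := congrArg (fun T => T (η (e (i, m')))) (lft_Lam (sing E m') g)
        exact this.symm
      rw [h3, inner_lft_sing]
      by_cases h : m = m'
      · subst h; simp
      · rw [if_neg h, if_neg (fun h' => h (Subtype.ext h'))]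
    simp only [h2]
    rw [Finset.sum_ite_eq]
    simp
  rw [h1]
  have h4 : ‖(∑ m ∈ S, ⟪ζ j m, π g (ζ i m)⟫_ℂ) -
      ∑ m : S, ⟪η (e (j, m)), Lam E g (η (e (i, m)))⟫_ℂ‖ ≤ ε / 2 := by
    rw [← Finset.sum_coe_sort S, ← Finset.sum_sub_distrib]
    refine (norm_sum_le _ _).trans ?_
    have h5 : ∀ m : S, ‖⟪ζ j (m : ℤ), π g (ζ i (m : ℤ))⟫_ℂ -
        ⟪η (e (j, m)), Lam E g (η (e (i, m)))⟫_ℂ‖ ≤ ε / (2 * ((S.card : ℝ) + 1)) := by
      intro m
      have := (hη g hg (e (i, m)) (e (j, m))).le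
      simpa only [Equiv.symm_apply_apply] using this
    refine (Finset.sum_le_sum fun m _ => h5 m).trans ?_
    rw [Finset.sum_const, nsmul_eq_mul, Finset.card_univ, Fintype.card_coe]
    rw [mul_div_assoc', div_le_div_iff₀ (by positivity) (by norm_num)]
    nlinarith [Nat.cast_nonneg (α := ℝ) S.card]
  have h6 := hS g hg i j
  rw [dist_comm, dist_eq_norm] at h6
  calc ‖⟪ζ j, lf π g (ζ i)⟫_ℂ - ∑ m : S, ⟪η (e (j, m)), Lam E g (η (e (i, m)))⟫_ℂ‖
      = ‖(⟪ζ j, lf π g (ζ i)⟫_ℂ - ∑ m ∈ S, ⟪ζ j m, π g (ζ i m)⟫_ℂ) +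
        ((∑ m ∈ S, ⟪ζ j m, π g (ζ i m)⟫_ℂ) -
          ∑ m : S, ⟪η (e (j, m)), Lam E g (η (e (i, m)))⟫_ℂ)‖ := by
        rw [sub_add_sub_cancel]
    _ ≤ _ := norm_add_le _ _
    _ < ε / 2 + ε / 2 := add_lt_add_of_lt_of_le h6 h4
    _ = ε := by ring

end
end Pool.Agent.W212.SK
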